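import Mathlib
import Pool.Agent.W200.MR.Stm

/-!
The recursion for the sequences `s` and `T`.
-/

open Finset Filter Topology MeasureTheory
open Pool.Agent.W200.MR

namespace Pool.Agent.W551.MR

/-- the invariant of the recursion -/
def Good (k : ℕ) (x : ℝ × ℕ) : Prop :=
  (k : ℝ) + 1 ≤ x.1 ∧
  (∀ N : ℕ, x.2 ≤ N → ∀ a b : ℕ, 1 ≤ a → a ≤ k + 1 →
    ‖SD x.1 x.2 a b N‖ ≤ 2 * (1 / ((k : ℝ) + 1)) * N) ∧
  (∀ (s δ S0 : ℝ), 0 < δ →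
    ∃ t : ℝ, S0 ≤ t ∧ (∀ n : ℕ, 1 ≤ n → n < x.2 → ‖pw t n - 1‖ ≤ δ) ∧
    ∀ N : ℕ, x.2 ≤ N → ∀ a b : ℕ, 1 ≤ a → a ≤ k + 1 →
      ‖SA (s + t) a b N‖ ≤ ‖SD s x.2 a b N‖ + (1 / ((k : ℝ) + 1)) * N)

/-- the relation between consecutive states -/
def Rel (Φ : ℕ → ℝ → ℕ → ℕ) (k : ℕ) (x y : ℝ × ℕ) : Prop :=
  x.2 < y.2 ∧
  (∀ n : ℕ, 1 ≤ n → n < x.2 → ‖pw y.1 n - pw x.1 n‖ ≤ (1 / 2 : ℝ) ^ k) ∧
  (∀ N : ℕ, x.2 ≤ N → ∀ a b : ℕ, 1 ≤ a → a ≤ k + 1 →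
    ‖SA y.1 a b N‖ ≤ 3 / ((k : ℝ) + 1) * N) ∧
  Φ k y.1 x.2 ≤ y.2

theorem exGood (h1 : S_DET) (h2 : S_L2) (k : ℕ) (s : ℝ) (hs : (k : ℝ) + 1 ≤ s) (B : ℕ) :
    ∃ T : ℕ, B ≤ T ∧ Good k (s, T) := by
  have hk : (0 : ℝ) < 1 / ((k : ℝ) + 1) := by positivity
  have hn : 1 / ‖(1 : ℂ) + (s : ℂ) * Complex.I‖ ≤ 1 / ((k : ℝ) + 1) := by
    apply one_div_le_one_div_of_le (by positivity)
    have h3 := Complex.abs_im_le_norm ((1 : ℂ) + (s : ℂ) * Complex.I)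
    have h4 : ((1 : ℂ) + (s : ℂ) * Complex.I).im = s := by simp
    rw [h4] at h3
    exact hs.trans ((le_abs_self s).trans h3)
  obtain ⟨T1, hT1⟩ := h1 s (1 / ((k : ℝ) + 1)) (k + 1) hk hn
  obtain ⟨T2, hT2⟩ := h2 (1 / ((k : ℝ) + 1)) (k + 1) hk
  refine ⟨max B (max T1 T2), le_max_left _ _, hs, ?_, ?_⟩
  · intro N hN a b ha hb
    exact hT1 _ ((le_max_left _ _).trans (le_max_right _ _)) N hN a b ha hb
  · intro s' δ S0 hδ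
    exact hT2 _ ((le_max_right _ _).trans (le_max_right _ _)) s' δ S0 hδ

theorem pw_add (s t : ℝ) (n : ℕ) : pw (s + t) n = pw s n * pw t n := by
  unfold pw
  rw [← Complex.exp_add]
  congr 1
  push_cast
  ring

theorem norm_pw (s : ℝ) (n : ℕ) : ‖pw s n‖ = 1 := by
  unfold pw
  exact Complex.norm_exp_ofReal_mul_I _

theorem step (h1 : S_DET) (h2 : S_L2) (Φ : ℕ → ℝ → ℕ → ℕ) (k : ℕ) (x : ℝ × ℕ) (hx : Good k x) :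
    ∃ y : ℝ × ℕ, Good (k + 1) y ∧ Rel Φ k x y := by
  obtain ⟨hs, hd, hl⟩ := hx
  obtain ⟨t, ht0, ht1, ht2⟩ := hl x.1 ((1 / 2 : ℝ) ^ k) ((k : ℝ) + 2) (by positivity)
  have hk0 : (0 : ℝ) ≤ (k : ℝ) := Nat.cast_nonneg k
  obtain ⟨T', hT', hg⟩ := exGood h1 h2 (k + 1) (x.1 + t) (by push_cast; linarith)
    (max (x.2 + 1) (Φ k (x.1 + t) x.2))
  refine ⟨(x.1 + t, T'), hg, ?_, ?_, ?_, ?_⟩
  · exact lt_of_lt_of_le (Nat.lt_succ_self _) ((le_max_left _ _).trans hT')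
  · intro n hn1 hn2
    show ‖pw (x.1 + t) n - pw x.1 n‖ ≤ _
    have h3 : pw (x.1 + t) n - pw x.1 n = pw x.1 n * (pw t n - 1) := by
      rw [pw_add]; ring
    rw [h3, norm_mul, norm_pw, one_mul]
    exact ht1 n hn1 hn2
  · intro N hN a b ha hb
    have h3 := ht2 N hN a b ha hb
    have h4 := hd N hN a b ha hb
    show ‖SA (x.1 + t) a b N‖ ≤ _
    calc ‖SA (x.1 + t) a b N‖ ≤ 2 * (1 / ((k : ℝ) + 1)) * N + (1 / ((k : ℝ) + 1)) * N := by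
          linarith
      _ = 3 / ((k : ℝ) + 1) * N := by ring
  · exact (le_max_right _ _).trans hT'

theorem t_SEQ : S_DET → S_L2 → S_SEQ := by
  intro h1 h2 Φ
  have hst := step h1 h2 Φ
  choose f hf1 hf2 using hst
  obtain ⟨T0, _, hT0⟩ := exGood h1 h2 0 1 (by simp) 0
  let sq : (k : ℕ) → {x : ℝ × ℕ // Good k x} := fun k =>
    Nat.rec (motive := fun k => {x : ℝ × ℕ // Good k x}) ⟨(1, T0), hT0⟩
      (fun k x => ⟨f k x.1 x.2, hf1 k x.1 x.2⟩) k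
  have hrel : ∀ k, Rel Φ k (sq k).1 (sq (k + 1)).1 := fun k => hf2 k (sq k).1 (sq k).2
  refine ⟨fun k => (sq k).1.1, fun k => (sq k).1.2, fun k => (sq k).2.1,
    fun k => (hrel k).1, fun k => (hrel k).2.1, fun k => (hrel k).2.2.1, fun k => (hrel k).2.2.2⟩

end Pool.Agent.W551.MR
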